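import Pool.Agent.Run7.h529.PB.Arc

/-!
# All arcs of a typical self-avoiding polygon are concatenations of few bridges

A polygon is the union of two bridges, from a lowest to a highest vertex and back, but its other
arcs can be spirals: for the worst polygons of perimeter `2 n` one needs of the order `√n` bridges
for some arcs. For an arc of a polygon and one of the two coordinates, a bridge is a piece on which
the coordinate is between its values at the two ends of the piece. `V f h` is the least `m` such
that every arc of the polygon `f` (with less than `2 n` steps, through the root or not) is a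
concatenation of `m` bridges for the coordinate `h`. The theorem says that `V` is at most of the
order `(log n)²` for the polygons counted by `p_{2n}`:

1. the number of the polygons with `V ≥ m` is at most `λ ^ (-m) exp (K λ² (log n)²)` times the
   number of all polygons, for all `λ ≥ 1` and `m` (so the tail decreases faster than every
   exponential);
2. with probability at least `1 - e^(-x)` all arcs of the polygon are concatenations of at most
   `y = K ((log n)² + x)` bridges, for both coordinates, every arc with `a` steps contains a bridge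
   with at least `a / y` steps, and every arc whose end points differ by `d` in the coordinate
   contains a bridge of span at least `d / y`.

Proof. Removing the last step after moving the root to the time `s` gives an injective map from the
polygons to the walks with `2 n - 1` steps, for every `s`; the exponential moments of the number of
bridges of the walks are those of `MP_d98d96_pr.FewBridges` (`Run7.h529.FB`), and the walks of this
form are a proportion at least `exp (- K (log n)²)` of all walks (starting files `TH508.LT`, in the
form of `Run7.h738.PG` and `Run7.h822.WN.loops_many`).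
-/

set_option autoImplicit false

namespace Pool.Agent.Results.MP_376faf_co.ArcBridges

/-- `f` is a self-avoiding polygon of perimeter `2 n`, with a root (which is the origin) and an
orientation: a closed nearest-neighbour walk of `2 n` steps which visits no vertex twice. (Every
polygon, up to translation, has exactly `4 n` such descriptions, so that a uniform `f` is a uniform
polygon with a uniform root and orientation.) -/
def IsPolygon (n : ℕ) (f : ZMod (2 * n) → ℤ × ℤ) : Prop :=
  f 0 = 0 ∧ Function.Injective f ∧
    ∀ i : ZMod (2 * n), |(f (i + 1)).1 - (f i).1| + |(f (i + 1)).2 - (f i).2| = 1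

/-- The piece of the sequence `g` between the times `u ≤ v` is a bridge: all its members are between
the two extreme ones (it may run upwards or downwards). -/
def Bridge (g : ℕ → ℤ) (u v : ℕ) : Prop :=
  u ≤ v ∧ ((∀ i, u ≤ i → i ≤ v → g u ≤ g i ∧ g i ≤ g v) ∨
    (∀ i, u ≤ i → i ≤ v → g v ≤ g i ∧ g i ≤ g u))

/-- The piece of `g` between the times `u` and `v` is a concatenation of `m` bridges (some of them
may have no steps). -/
def Concatenation (g : ℕ → ℤ) (m u v : ℕ) : Prop :=
  ∃ τ : ℕ → ℕ, τ 0 = u ∧ τ m = v ∧ ∀ i < m, Bridge g (τ i) (τ (i + 1))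

/-- The coordinate `h` along the arc of the polygon which starts at the time `s`. -/
def along {n : ℕ} (f : ZMod (2 * n) → ℤ × ℤ) (h : ℤ × ℤ → ℤ) (s : ZMod (2 * n)) (i : ℕ) : ℤ :=
  h (f (s + (i : ZMod (2 * n))))

/-- The least `m` such that every arc with less than `2 n` steps is a concatenation of `m`
bridges. -/
noncomputable def V {n : ℕ} (f : ZMod (2 * n) → ℤ × ℤ) (h : ℤ × ℤ → ℤ) : ℕ :=
  sInf {m | ∀ (s : ZMod (2 * n)) (a : ℕ), a < 2 * n → Concatenation (along f h s) m 0 a}

theorem result :
    (∃ K : ℝ, 0 < K ∧ ∀ n : ℕ, 2 ≤ n → ∀ h : ℤ × ℤ → ℤ, h = Prod.fst ∨ h = Prod.snd →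
      ∀ lam : ℝ, 1 ≤ lam → ∀ m : ℕ,
        lam ^ m * (Nat.card {f : ZMod (2 * n) → ℤ × ℤ // IsPolygon n f ∧ m ≤ V f h} : ℝ) ≤
          Real.exp (K * lam ^ 2 * Real.log n ^ 2) *
            (Nat.card {f : ZMod (2 * n) → ℤ × ℤ // IsPolygon n f} : ℝ)) ∧
    (∃ K : ℝ, 0 < K ∧ ∀ n : ℕ, 2 ≤ n → ∀ x y : ℝ, 0 ≤ x → y = K * (Real.log n ^ 2 + x) →
      (1 - Real.exp (-x)) * (Nat.card {f : ZMod (2 * n) → ℤ × ℤ // IsPolygon n f} : ℝ) ≤
      (Nat.card {f : ZMod (2 * n) → ℤ × ℤ // IsPolygon n f ∧
        ∀ h : ℤ × ℤ → ℤ, h = Prod.fst ∨ h = Prod.snd → ∀ (s : ZMod (2 * n)) (a : ℕ), a < 2 * n →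
          Concatenation (along f h s) ⌊y⌋₊ 0 a ∧
          (∃ u v : ℕ, u ≤ v ∧ v ≤ a ∧ Bridge (along f h s) u v ∧
            (a : ℝ) ≤ y * ((v : ℝ) - u)) ∧
          (∃ u v : ℕ, u ≤ v ∧ v ≤ a ∧ Bridge (along f h s) u v ∧
            |(along f h s a : ℝ) - along f h s 0| ≤
              y * |(along f h s v : ℝ) - along f h s u|)} : ℝ)) := by
  constructor
  · obtain ⟨K, hK, H⟩ := Run7.h529.PB.moments
    refine ⟨K, hK, fun n hn h hh lam hl m => ?_⟩
    exact H n hn h hh lam hl m
  · obtain ⟨K, hK, H⟩ := Run7.h529.PB.typical
    refine ⟨K, hK, fun n hn x y hx hy => ?_⟩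
    rw [hy]
    exact H n hn x hx

end Pool.Agent.Results.MP_376faf_co.ArcBridges
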