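import Pool.Agent.Run7.h822.WN.Poly

/-!
# The winding angles and the turnings of the arcs of self-avoiding polygons

For the uniform self-avoiding polygon of perimeter `2 n` on `ℤ²` and all its arcs:

* `winding f P s a`: the winding angle around the lattice point `P` of the arc `f s, …, f (s + a)`:
  the sum of the angles at which the steps of the arc are seen from `P` (which is not on the arc);
* `turning f s a`: the total turning of the arc, `π / 2` times the number of its left turns minus the
  number of its right turns. (For the whole closed polygon this is `± 2 π`.)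

Arcs of polygons can be spirals, with winding angles and turnings of the order `√n`. **The theorem**:
with probability at least `1 - e^(-x)`, all winding angles of all arcs around all lattice points not
on the arc and the total turnings of all arcs are at most `K ((log n)² + x)`.

Proof: a polygon without one edge is a self-avoiding walk, and by the lower bound for the number
of polygons (starting files `TH508.LT`, used in the form `Run7.h738.PG.loops_lower` of helper738) a
proportion `exp (- K (log n)²)` of the walks with `2 n - 1` steps is of this form; the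
probability that the uniform walk has a winding angle or a turning above `K ((log n)² + x)` is even
smaller (`MP_46f0ca_pr.WindingAngles`, helper287 and helper822, with the bound of helper529 for the
number of bridges). Arcs through the root consist of two arcs of the walk.
-/

set_option autoImplicit false

namespace Pool.Agent.Results.MP_376faf_co.ArcWindings

/-- `f` is a self-avoiding polygon of perimeter `2 n`, with a root (which is the origin) and an
orientation: a closed nearest-neighbour walk of `2 n` steps which visits no vertex twice. (Every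
polygon, up to translation, has exactly `4 n` such descriptions, so that a uniform `f` is a uniform
polygon with a uniform root and orientation.) -/
def IsPolygon (n : ℕ) (f : ZMod (2 * n) → ℤ × ℤ) : Prop :=
  f 0 = 0 ∧ Function.Injective f ∧
    ∀ i : ZMod (2 * n), |(f (i + 1)).1 - (f i).1| + |(f (i + 1)).2 - (f i).2| = 1

/-- the point of the plane -/
noncomputable def pt (p : ℤ × ℤ) : ℂ := p.1 + p.2 * Complex.I

/-- the winding angle of the arc of `a` steps from the time `s` around the point `P` -/
noncomputable def winding {n : ℕ} (f : ZMod (2 * n) → ℤ × ℤ) (P : ℤ × ℤ) (s : ZMod (2 * n))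
    (a : ℕ) : ℝ :=
  ∑ k ∈ Finset.range a, Complex.arg ((pt (f (s + (k : ZMod (2 * n)) + 1)) - pt P) /
    (pt (f (s + (k : ZMod (2 * n)))) - pt P))

/-- the total turning of the arc of `a` steps from the time `s` -/
noncomputable def turning {n : ℕ} (f : ZMod (2 * n) → ℤ × ℤ) (s : ZMod (2 * n)) (a : ℕ) : ℝ :=
  ∑ k ∈ Finset.Ico 1 a, Complex.arg
    ((pt (f (s + (k : ZMod (2 * n)) + 1)) - pt (f (s + (k : ZMod (2 * n))))) /
    (pt (f (s + (k : ZMod (2 * n)))) - pt (f (s + (k : ZMod (2 * n)) - 1))))

/-- **Theorem.** There is a constant `K > 0` such that for all `n ≥ 2` and `x ≥ 0` a proportion at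
least `1 - exp (-x)` of the self-avoiding polygons of perimeter `2 n` has the following property: for
all arcs (with less than `2 n` steps) the total turning is at most `K ((log n)² + x)` in absolute
value, and so is the winding angle around every lattice point which is not on the arc. -/
theorem result : ∃ K : ℝ, 0 < K ∧ ∀ n : ℕ, 2 ≤ n → ∀ x : ℝ, 0 ≤ x →
    (1 - Real.exp (-x)) * (Nat.card {f : ZMod (2 * n) → ℤ × ℤ // IsPolygon n f} : ℝ) ≤
    (Nat.card {f : ZMod (2 * n) → ℤ × ℤ // IsPolygon n f ∧
      ∀ (s : ZMod (2 * n)) (a : ℕ), a < 2 * n →
        |turning f s a| ≤ K * (Real.log n ^ 2 + x) ∧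
        ∀ P : ℤ × ℤ, (∀ k : ℕ, k ≤ a → f (s + (k : ZMod (2 * n))) ≠ P) →
          |winding f P s a| ≤ K * (Real.log n ^ 2 + x)} : ℝ) := by
  obtain ⟨K, hK, H⟩ := Run7.h822.WN.poly_main
  refine ⟨K, hK, fun n hn x hx => ?_⟩
  have h := H n hn x hx
  have e1 : (Nat.card {f : ZMod (2 * n) → ℤ × ℤ // IsPolygon n f}) =
      ({f | Run7.h738.PG.Loop (2 * n) f} : Set (ZMod (2 * n) → ℤ × ℤ)).ncard :=
    Nat.card_coe_set_eq _
  have e2 : (Nat.card {f : ZMod (2 * n) → ℤ × ℤ // IsPolygon n f ∧
      ∀ (s : ZMod (2 * n)) (a : ℕ), a < 2 * n →
        |turning f s a| ≤ K * (Real.log n ^ 2 + x) ∧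
        ∀ P : ℤ × ℤ, (∀ k : ℕ, k ≤ a → f (s + (k : ZMod (2 * n))) ≠ P) →
          |winding f P s a| ≤ K * (Real.log n ^ 2 + x)}) =
      ({f | Run7.h738.PG.Loop (2 * n) f ∧
        Run7.h822.WN.PTurns f (K * (Real.log n ^ 2 + x))} :
        Set (ZMod (2 * n) → ℤ × ℤ)).ncard := Nat.card_coe_set_eq _
  rw [e1, e2]
  exact h

end Pool.Agent.Results.MP_376faf_co.ArcWindings
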