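import Pool.Agent.Run7.h738.HPP.Br

/-!
# Self-avoiding polygons and pairs of mutually avoiding bridges

The square lattice. For every direction (of any slope) and every length, the number of pairs of
mutually avoiding bridges with common end points, with `2 n` steps together, is comparable to the
number of polygons of perimeter `2 n`.
-/

set_option autoImplicit false

namespace Pool.Agent.Results.MP_376faf_co.BridgePairs

/-- `ω` is a self-avoiding walk with `n` steps on `ℤ²` which starts at the origin. -/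
def SAW (n : ℕ) (ω : Fin (n + 1) → ℤ × ℤ) : Prop :=
  ω 0 = (0, 0) ∧
  (∀ i : Fin n, |(ω i.succ).1 - (ω i.castSucc).1| + |(ω i.succ).2 - (ω i.castSucc).2| = 1) ∧
  Function.Injective ω

/-- `f` is a self-avoiding polygon of perimeter `m`, with a root (which is the origin) and an
orientation: a closed nearest-neighbour walk of `m` steps which visits no vertex twice. -/
def IsPolygon (m : ℕ) (f : ZMod m → ℤ × ℤ) : Prop :=
  f 0 = 0 ∧ Function.Injective f ∧
    ∀ i : ZMod m, |(f (i + 1)).1 - (f i).1| + |(f (i + 1)).2 - (f i).2| = 1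

/-- The number of the self-avoiding polygons of perimeter `2 n`, up to translation: every polygon
has exactly `4 n` rooted and oriented descriptions (`n ≥ 2`). -/
noncomputable def p (n : ℕ) : ℝ :=
  (({f | IsPolygon (2 * n) f} : Set (ZMod (2 * n) → ℤ × ℤ)).ncard : ℝ) / (4 * n)

/-- The height of a site in the direction `(a, b)`. -/
def height (a b : ℝ) (v : ℤ × ℤ) : ℝ := a * v.1 + b * v.2

/-- `ω` is a bridge in the direction `(a, b)`, up to `y`: its starting point is a lowest site and its
end point is a highest site, up to `y`. For `y = 0` all heights are at least the height `0` of the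
starting point and at most the height of the end point. -/
def Bridge (a b y : ℝ) (n : ℕ) (ω : Fin (n + 1) → ℤ × ℤ) : Prop :=
  SAW n ω ∧ ∀ i, -y ≤ height a b (ω i) ∧ height a b (ω i) ≤ height a b (ω (Fin.last n)) + y

/-- The pairs of bridges with `k` and `l` steps, from the origin to a common end point, which have
no other common sites. -/
def pairs (a b y : ℝ) (k l : ℕ) : Set ((Fin (k + 1) → ℤ × ℤ) × (Fin (l + 1) → ℤ × ℤ)) :=
  {q | Bridge a b y k q.1 ∧ Bridge a b y l q.2 ∧ q.1 (Fin.last k) = q.2 (Fin.last l) ∧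
    ∀ i j, q.1 i = q.2 j → (i = 0 ∧ j = 0) ∨ (i = Fin.last k ∧ j = Fin.last l)}

/-- The number of these pairs with `m` steps together. -/
noncomputable def B (a b y : ℝ) (m : ℕ) : ℕ :=
  ∑ k ∈ Finset.Ico 1 m, (pairs a b y k (m - k)).ncard

/-- **Polygons and pairs of bridges.** There is a constant `K > 1` such that, for every unit vector
`(a, b)`, every `n ≥ 2` and every `y ≥ 0`, the number of the pairs of mutually avoiding bridges in
the direction `(a, b)`, up to `y`, with common end points and `2 n` steps together is at least twice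
the number `p n` of the polygons of perimeter `2 n`, and at most `K ^ (1 + y)` times this number. -/
theorem result : ∃ K : ℝ, 1 < K ∧ ∀ a b : ℝ, a ^ 2 + b ^ 2 = 1 → ∀ n : ℕ, 2 ≤ n →
    ∀ y : ℝ, 0 ≤ y → 2 * p n ≤ B a b y (2 * n) ∧ (B a b y (2 * n) : ℝ) ≤ K ^ (1 + y) * p n := by
  obtain ⟨K, hK, hE⟩ := Run7.h738.PG.poly_extr
  refine ⟨26 * K ^ 2, by nlinarith [one_lt_pow₀ hK (two_ne_zero)], fun a b hab n hn y hy => ?_⟩
  have : NeZero (2 * n) := ⟨by omega⟩
  have hn0 : (0 : ℝ) < n := by
    have : 0 < n := by omega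
    exact_mod_cast this
  set h := Run7.h738.BV.ht a b with hh
  have hsub : ∀ u v, h (u - v) = h u - h v := Run7.h738.BV.ht_sub a b
  have h00 : h 0 = 0 := by
    have := hsub 0 0
    rw [sub_self] at this
    linarith
  have hB : ∀ z : ℝ, B a b z (2 * n) =
      ∑ k ∈ Finset.Ico 1 (2 * n), (Run7.h738.HPP.BR h z k (2 * n - k)).ncard := fun z => rfl
  have hL : (({f | IsPolygon (2 * n) f} : Set (ZMod (2 * n) → ℤ × ℤ)).ncard : ℝ) =
      (Run7.h738.HPP.LF (2 * n)).card := by
    rw [← Set.ncard_coe_finset]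
    congr 2
    ext f
    rw [Finset.mem_coe, Run7.h738.HPP.mem_LF]
    exact Iff.rfl
  have hp : p n = ((Run7.h738.HPP.LF (2 * n)).card : ℝ) / (4 * n) := by
    unfold p
    rw [hL]
  constructor
  · have h1 : (Run7.h738.HPP.LF (2 * n)).card ≤ 2 * n * B a b 0 (2 * n) := by
      rw [hB]
      refine (Run7.h738.HPP.L_le_X (h := h) (le_refl 0)).trans
        ((Run7.h738.HPP.X_le_Y hsub 0).trans ?_)
      refine Nat.mul_le_mul_left _ (Run7.h738.HPP.BR_sum_ge h00 ?_)
      intro f hf h2 h3
      exact Run7.h738.HPP.not_flat hab (by omega) f hf h2 h3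
    have h2 : B a b 0 (2 * n) ≤ B a b y (2 * n) := by
      rw [hB, hB]
      exact Finset.sum_le_sum fun k _ => Run7.h738.HPP.BR_mono hy k _
    have h3 : (((Run7.h738.HPP.LF (2 * n)).card : ℕ) : ℝ) ≤ 2 * n * (B a b y (2 * n) : ℝ) := by
      exact_mod_cast h1.trans (Nat.mul_le_mul_left _ h2)
    rw [hp, mul_div_assoc', div_le_iff₀ (by positivity)]
    linarith
  · have hK1 : 1 ≤ K ^ (1 + y) := Real.one_le_rpow hK.le (by linarith)
    have hH := Run7.h738.BV.steep_ht hab
    have hab' : (-a) ^ 2 + (-b) ^ 2 = 1 := by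
      rw [neg_sq, neg_sq]
      exact hab
    have hH' := Run7.h738.BV.steep_ht hab'
    have hneg : Run7.h738.BV.ht (-a) (-b) = fun v => - h v := by
      funext v
      rw [hh]
      unfold Run7.h738.BV.ht
      ring
    rw [hneg] at hH'
    have h1 := Run7.h738.HPP.X_le (m := 2 * n) (h := h) (K := K) (y := y) hK1
      (fun z hz => (hE (2 * n) (by omega) y z hy hz).1 h hH)
      (fun z hz => (hE (2 * n) (by omega) y z hy hz).1 _ hH')
    have h2 : 2 * n * B a b y (2 * n) ≤ (Run7.h738.HPP.XF (m := 2 * n) h y).card := by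
      rw [hB]
      exact (Nat.mul_le_mul_left _ (Run7.h738.HPP.BR_sum_le h00)).trans
        (Run7.h738.HPP.Y_le_X hsub y)
    have h3 : 2 * n * (B a b y (2 * n) : ℝ) ≤ ((Run7.h738.HPP.XF (m := 2 * n) h y).card : ℝ) := by
      exact_mod_cast h2
    have h4 := h3.trans h1
    have h5 : 26 * (K ^ (1 + y)) ^ 2 ≤ (26 * K ^ 2) ^ (1 + y) := by
      rw [Real.mul_rpow (by norm_num) (by positivity)]
      have e : (K ^ (1 + y)) ^ 2 = (K ^ 2) ^ (1 + y) := by
        rw [← Real.rpow_natCast (K ^ (1 + y)) 2, ← Real.rpow_mul (by linarith), mul_comm (1 + y),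
          Real.rpow_mul (by linarith), Real.rpow_natCast]
      rw [e]
      refine mul_le_mul_of_nonneg_right ?_ (by positivity)
      calc (26 : ℝ) = 26 ^ (1 : ℝ) := by norm_num
        _ ≤ 26 ^ (1 + y) := Real.rpow_le_rpow_of_exponent_le (by norm_num) (by linarith)
    rw [hp, mul_div_assoc', le_div_iff₀ (by positivity)]
    have hLF : (0 : ℝ) ≤ (Run7.h738.HPP.LF (2 * n)).card := Nat.cast_nonneg _
    calc (B a b y (2 * n) : ℝ) * (4 * n) = 2 * (2 * n * (B a b y (2 * n) : ℝ)) := by ring
      _ ≤ 2 * (13 * (K ^ (1 + y)) ^ 2 * (Run7.h738.HPP.LF (2 * n)).card) := by linarith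
      _ = 26 * (K ^ (1 + y)) ^ 2 * (Run7.h738.HPP.LF (2 * n)).card := by ring
      _ ≤ _ := mul_le_mul_of_nonneg_right h5 hLF

end Pool.Agent.Results.MP_376faf_co.BridgePairs
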