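import Pool.Agent.Run7.h106.AV.Poly

/-!
Self-avoiding polygons on the square lattice in a weak stretching or compressing force: analytic
continuation of the generating function beyond its own circle of convergence, uniformly in the force.
-/

set_option autoImplicit false

namespace Pool.Agent.Results.MP_376faf_co.StretchedPolygonsContinuation

open Filter Topology

/-- `ω` is an `n`-step self-avoiding walk on `ℤ²` started at the origin. -/
def IsSAW (n : ℕ) (ω : Fin (n + 1) → ℤ × ℤ) : Prop :=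
  ω 0 = (0, 0) ∧
  (∀ i : Fin n, |(ω i.succ).1 - (ω i.castSucc).1| + |(ω i.succ).2 - (ω i.castSucc).2| = 1) ∧
  Function.Injective ω

/-- the number of `n`-step self-avoiding walks on `ℤ²` started at the origin -/
noncomputable def c (n : ℕ) : ℕ := {ω | IsSAW n ω}.ncard

/-- a closed nearest-neighbour loop on `ℤ²` with `m` steps, rooted at the origin and oriented,
that visits no vertex twice -/
def IsLoop (m : ℕ) (f : ZMod m → ℤ × ℤ) : Prop :=
  f 0 = 0 ∧ Function.Injective f ∧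
    ∀ i : ZMod m, |(f (i + 1)).1 - (f i).1| + |(f (i + 1)).2 - (f i).2| = 1

/-- the width (horizontal extent) of a loop -/
noncomputable def width (m : ℕ) (f : ZMod m → ℤ × ℤ) : ℕ :=
  sSup {w : ℕ | ∃ i j, w = ((f i).1 - (f j).1).natAbs}

/-- the height (vertical extent) of a loop -/
noncomputable def height (m : ℕ) (f : ZMod m → ℤ × ℤ) : ℕ :=
  sSup {w : ℕ | ∃ i j, w = ((f i).2 - (f j).2).natAbs}

/-- The sum of `g (width, height)` over the self-avoiding polygons of perimeter `2 n` up to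
translation: every polygon corresponds to `4 n` loops from the origin. -/
noncomputable def S (g : ℕ → ℕ → ℝ) (n : ℕ) : ℝ :=
  (∑ᶠ f ∈ {f : ZMod (2 * n) → ℤ × ℤ | IsLoop (2 * n) f}, g (width (2 * n) f) (height (2 * n) f)) /
    (4 * (n : ℝ))

/-- the weight `exp (s width + t height)` -/
noncomputable def ex (s t : ℝ) (a b : ℕ) : ℝ := Real.exp (s * a + t * b)

/-- The series `∑_{n ≥ 2} S g n x^(2n)` converges for all `x` in `[0, 1/ν)`. -/
def Conv (ν : ℝ) (g : ℕ → ℕ → ℝ) : Prop :=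
  ∀ x : ℝ, 0 ≤ x → ν * x < 1 → Summable (fun n : ℕ => S g (n + 2) * x ^ (2 * (n + 2)))

/-- `cos (2 arg z)` for `z ≠ 0` -/
noncomputable def cos2 (z : ℂ) : ℝ := (z ^ 2).re / ‖z‖ ^ 2

/-- The domain `|z| < (1 + δ (1 - cos (2 arg z))) / ν`: the disc `|z| < 1 / ν` enlarged at all
points of the circle `|z| = 1 / ν` except `±1 / ν`. -/
def Dom (ν δ : ℝ) : Set ℂ := {z | ν * ‖z‖ < 1 + δ * (1 - cos2 z)}

/-- `F` is a holomorphic extension of `∑_{n ≥ 2} S g n z^(2n)` from the disc `|z| < 1/ν` to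
`Dom ν δ` with `|F'(z)| ≤ K (1 + |F'(x)|)` for `z² ∉ [0, ∞)`, where
`x = (1 - δ (1 - cos (2 arg z))) / ν < 1/ν`. -/
def Extends (ν δ K : ℝ) (g : ℕ → ℕ → ℝ) (F : ℂ → ℂ) : Prop :=
  DifferentiableOn ℂ F (Dom ν δ) ∧
    (∀ z : ℂ, ν * ‖z‖ < 1 →
      HasSum (fun n : ℕ => (S g (n + 2) : ℂ) * z ^ (2 * (n + 2))) (F z)) ∧
    ∀ z ∈ Dom ν δ, z ≠ 0 → cos2 z < 1 →
      ‖deriv F z‖ ≤ K * (1 + ‖deriv F (((1 - δ * (1 - cos2 z)) / ν : ℝ) : ℂ)‖)

/-- `g ≥ 0` has growth rate at most `h` in both variables, and changes at most by the factor `B` if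
the variables change by at most `2`. -/
def Regular (B h : ℝ) (g : ℕ → ℕ → ℝ) : Prop :=
  (∀ a b, 0 ≤ g a b ∧ g a b ≤ B * Real.exp (h * ((a : ℝ) + b))) ∧
    ∀ a b i j, i ≤ 2 → j ≤ 2 → g (a + i) (b + j) ≤ B * g a b ∧ g a b ≤ B * g (a + i) (b + j)

open Pool.Agent.H976R2 Pool.Agent.N929.EZ Pool.Agent.H739K Run7.h106.AC Run7.h106.AW

theorem S_eq (g : ℕ → ℕ → ℝ) (n : ℕ) : S g (n + 2) =
    (∑ w ∈ KP (2 * (n + 2) - 1), Run7.h106.AV.Gg g w) / (4 * ((n + 2 : ℕ) : ℝ)) := by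
  unfold S
  rw [← Run7.h106.AV.loop_Gg (by omega) g]
  rfl

/-- **Theorem.** Let `μ` be the connective constant of `ℤ²`. There are `h₀ > 0`, `κ > 1` and `δ > 0`
with the following properties.
(0) For every `ν` in `[μ/κ, κ μ]` the open connected set `Dom ν δ` contains the disc `|z| < 1/ν` and
all points of the circle `|z| = 1/ν` except `1/ν` and `-1/ν`.
(1) There is `K` such that for all real `s`, `t` with `|s|, |t| ≤ h₀` and all `ν` in `[μ/κ, κ μ]` for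
which the generating function `∑_P exp (s width P + t height P) z^(perimeter P)` of the
self-avoiding polygons `P` converges for `|z| < 1/ν`, this function has a holomorphic extension `F`
to `Dom ν δ` with `|F'(z)| ≤ K (1 + |F'(x)|)`, `x = (1 - δ (1 - cos (2 arg z))) / ν`.
(2) If `s, t ≤ 0` then the hypothesis of (1) holds for `ν = μ`.
(3) As (1), for all weights `g (width, height)` in the class `Regular B h₀`, with `K` depending on
`B` only. -/
theorem result : ∃ μ : ℝ, 1 ≤ μ ∧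
    Tendsto (fun n : ℕ => (c n : ℝ) ^ (1 / (n : ℝ))) atTop (𝓝 μ) ∧
    ∃ h₀ : ℝ, 0 < h₀ ∧ ∃ κ : ℝ, 1 < κ ∧ ∃ δ : ℝ, 0 < δ ∧ δ ≤ 1 / 4 ∧
    (∀ ν : ℝ, μ / κ ≤ ν → ν ≤ κ * μ →
      IsOpen (Dom ν δ) ∧ IsPreconnected (Dom ν δ) ∧ (∀ z : ℂ, ν * ‖z‖ < 1 → z ∈ Dom ν δ) ∧
      ∀ z : ℂ, ν * ‖z‖ = 1 → z ≠ ((1 / ν : ℝ) : ℂ) → z ≠ ((-(1 / ν) : ℝ) : ℂ) → z ∈ Dom ν δ) ∧
    (∃ K : ℝ, ∀ s t : ℝ, |s| ≤ h₀ → |t| ≤ h₀ → ∀ ν : ℝ, μ / κ ≤ ν → ν ≤ κ * μ →
      Conv ν (ex s t) → ∃ F : ℂ → ℂ, Extends ν δ K (ex s t) F) ∧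
    (∀ s t : ℝ, s ≤ 0 → t ≤ 0 → Conv μ (ex s t)) ∧
    ∀ B : ℝ, 1 ≤ B → ∃ K : ℝ, ∀ g : ℕ → ℕ → ℝ, Regular B h₀ g → ∀ ν : ℝ, μ / κ ≤ ν → ν ≤ κ * μ →
      Conv ν g → ∃ F : ℂ → ℂ, Extends ν δ K g F := by
  have hμ : 2 ≤ H981.mu := by linarith [Pool.Agent.H739K.mu_ge]
  obtain ⟨κ, hκ1, hκ2, δ, hδ, hδ4, h⟩ := Run7.h106.AV.kpV
  have hκ0 : 0 < κ := by linarith
  have hlog : 0 < Real.log κ := Real.log_pos hκ1
  have hν : ∀ ν : ℝ, H981.mu / κ ≤ ν → H981.mu ≤ κ * ν ∧ 1 ≤ ν := by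
    intro ν h1
    rw [div_le_iff₀ hκ0] at h1
    exact ⟨by linarith, by nlinarith⟩
  have h3 : ∀ B : ℝ, 1 ≤ B → ∃ K : ℝ, ∀ g : ℕ → ℕ → ℝ, Regular B (Real.log κ / 2) g →
      ∀ ν : ℝ, H981.mu / κ ≤ ν → ν ≤ κ * H981.mu →
      Conv ν g → ∃ F : ℂ → ℂ, Extends ν δ K g F := by
    intro B hB
    obtain ⟨K, hK, h'⟩ := h (81 * B ^ 2) 0 (81 * B ^ 2) (by positivity) (by nlinarith)
    refine ⟨K, fun g hg ν h1 h2 hc => ?_⟩
    obtain ⟨e1, e2⟩ := hν ν h1
    obtain ⟨F, F1, F2, F3⟩ := h' ν e2 e1 h2 (Run7.h106.AV.Gg g)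
      (fun w => Run7.h106.AV.Gg_nonneg hg w)
      (fun w hw => by unfold Run7.h106.AV.Gg; rw [if_neg hw])
      (Run7.h106.AV.Gg_hp hκ1 hB hg)
      (fun x hx0 hx => (hc x hx0 hx).congr fun n => by rw [S_eq])
    refine ⟨F, F1, fun z hz => ?_, F3⟩
    refine (congrArg (fun g => HasSum g (F z)) ?_).mp (F2 z hz)
    funext n
    rw [S_eq]
  refine ⟨H981.mu, by linarith, c_lim, Real.log κ / 2, by positivity, κ, hκ1, δ, hδ, hδ4,
    fun ν h1 h2 => ?_, ?_, ?_, h3⟩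
  · obtain ⟨e1, e2⟩ := hν ν h1
    obtain ⟨d1, d2, d3, d4⟩ := dom_nu hδ e2
    exact ⟨d1, d2, d3, d4⟩
  · obtain ⟨K, hK⟩ := h3 (Real.exp (4 * (Real.log κ / 2))) (Real.one_le_exp (by positivity))
    refine ⟨K, fun s t hs ht ν h1 h2 hc => hK (ex s t) ⟨fun a b => ⟨?_, ?_⟩,
      fun a b i j hi hj => ?_⟩ ν h1 h2 hc⟩
    · unfold ex
      positivity
    · have hs' := abs_le.1 hs
      have ht' := abs_le.1 ht
      have ha : (0 : ℝ) ≤ a := Nat.cast_nonneg a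
      have hb : (0 : ℝ) ≤ b := Nat.cast_nonneg b
      unfold ex
      rw [← Real.exp_add]
      refine Real.exp_le_exp.2 ?_
      nlinarith
    · have hs' := abs_le.1 hs
      have ht' := abs_le.1 ht
      have hi0 : (0 : ℝ) ≤ i := Nat.cast_nonneg i
      have hj0 : (0 : ℝ) ≤ j := Nat.cast_nonneg j
      have hi2 : (i : ℝ) ≤ 2 := by exact_mod_cast hi
      have hj2 : (j : ℝ) ≤ 2 := by exact_mod_cast hj
      unfold ex
      rw [← Real.exp_add, ← Real.exp_add]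
      push_cast
      constructor
      · refine Real.exp_le_exp.2 ?_
        nlinarith
      · refine Real.exp_le_exp.2 ?_
        nlinarith
  · intro s t hs ht x hx0 hx
    obtain ⟨δ', hδ', hδ4', K, hK, hac⟩ := gq_ac
    obtain ⟨f, f1, f2⟩ := hac 1 (by norm_num) le_rfl
    obtain ⟨F, F1, F2⟩ := poly_series hδ' (G := Gq 1)
      (fun w hw => by unfold Gq; rw [if_neg hw]) f1
    have h1 := (F2 (x : ℂ) (by rwa [Complex.norm_real, Real.norm_of_nonneg hx0])).summable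
    have h2 : Summable (fun n : ℕ => (∑ w ∈ KP (2 * (n + 2) - 1), Gq 1 w) /
        (4 * ((n + 2 : ℕ) : ℝ)) * x ^ (2 * (n + 2))) := by
      rw [← Complex.summable_ofReal]
      refine h1.congr fun n => ?_
      push_cast
      ring
    refine Summable.of_nonneg_of_le (fun n => ?_) (fun n => ?_) h2
    · rw [S_eq]
      refine mul_nonneg (div_nonneg (Finset.sum_nonneg fun w _ => ?_) (by positivity))
        (by positivity)
      unfold Run7.h106.AV.Gg ex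
      split_ifs <;> positivity
    · rw [S_eq]
      refine mul_le_mul_of_nonneg_right (div_le_div_of_nonneg_right
        (Finset.sum_le_sum fun w _ => ?_) (by positivity)) (by positivity)
      unfold Run7.h106.AV.Gg Gq ex
      split_ifs with h4
      · rw [one_pow, Real.exp_le_one_iff]
        have := mul_nonpos_of_nonpos_of_nonneg hs
          (Nat.cast_nonneg (α := ℝ) (mxx w - mnx w).toNat)
        have := mul_nonpos_of_nonpos_of_nonneg ht
          (Nat.cast_nonneg (α := ℝ) (mxy w - mny w).toNat)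
        linarith
      · exact le_rfl

end Pool.Agent.Results.MP_376faf_co.StretchedPolygonsContinuation
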